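import Pool.Agent.W2helper14.RB.SqA

set_option autoImplicit false

/-!
# Simultaneous membership of `m ^ 2 + 1` and `m ^ 2 + 3` in the random sieve model of Banks, Ford and Tao

For every prime `w` a residue class `a w` modulo `w` is chosen uniformly and independently. The random
set `R` consists of the natural numbers `n ≥ e ^ 2` which avoid the class `a w` for every prime `w` with
`∏_(v ≤ w) (1 - 1 / v) ≥ 1 / log n`; this is the random sieve model for the primes of Banks, Ford and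
Tao, in which the classes `0 mod w` of the sieve of Eratosthenes are replaced by random ones.

We prove that almost surely there are infinitely many `m` with `m ^ 2 + 1` and `m ^ 2 + 3` in `R` if and only
if `a 3 ≠ 1`, and that in this case the conjecture of Hardy and Littlewood on their number `Q n` (Q2 of the
problem) holds, with a square-root error.

The engine is the Bateman-Horn theorem for this model of helper64 (`W2helper64.BQ`).
-/

namespace Pool.Agent.Results.MP_a30aa5_nt.RandomSievePairs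

open Filter MeasureTheory Topology

/-- the product `V y = ∏_(w ≤ y, w prime) (1 - 1 / w)` -/
noncomputable def V (y : ℕ) : ℝ := ∏ w ∈ (Finset.Icc 1 y).filter Nat.Prime, (1 - 1 / (w : ℝ))

/-- the random set: all `n ≥ e ^ 2` outside the chosen class `a w` for every prime `w` with
`V w ≥ 1 / log n` -/
def R (a : (w : Nat.Primes) → ZMod (w : ℕ)) : Set ℕ :=
  {n | Real.exp 2 ≤ n ∧ ∀ w : Nat.Primes, 1 ≤ V (w : ℕ) * Real.log n → ((n : ℕ) : ZMod (w : ℕ)) ≠ a w}

/-- the chosen classes `a w`, `w` prime, are independent and uniform modulo `w` -/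
noncomputable def law : Measure ((w : Nat.Primes) → ZMod (w : ℕ)) :=
  Measure.infinitePi fun w : Nat.Primes => ProbabilityTheory.uniformOn (Set.univ : Set (ZMod (w : ℕ)))

instance (w : Nat.Primes) : Fact (w : ℕ).Prime := ⟨w.2⟩

/-- `v w = 2 + (a_w - 1 | w) + (a_w - 3 | w)`, the number of the classes `m` mod `w` with `m ^ 2 + 1 = a_w` or
`m ^ 2 + 3 = a_w` -/
noncomputable def v (a : (w : Nat.Primes) → ZMod (w : ℕ)) (w : Nat.Primes) : ℤ :=
  2 + quadraticChar (ZMod (w : ℕ)) (a w - 1) + quadraticChar (ZMod (w : ℕ)) (a w - 3)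

/-- the product of `w (w - v w) / (w - 1) ^ 2` over the primes `5 ≤ w ≤ z` -/
noncomputable def product (a : (w : Nat.Primes) → ZMod (w : ℕ)) (z : ℕ) : ℝ :=
  ∏ w ∈ (Finset.Icc 5 z).subtype Nat.Prime,
    (((w : ℕ) : ℝ) * (((w : ℕ) : ℝ) - (v a w : ℝ)) / (((w : ℕ) : ℝ) - 1) ^ 2)

/-- the factor of the primes `2` and `3`: it is `3` if `a 3 = 0` and `3 / 2` if `a 3 = 2` -/
noncomputable def factor (a : (w : Nat.Primes) → ZMod (w : ℕ)) : ℝ :=
  if a ⟨3, Nat.prime_three⟩ = 0 then 3 else 3 / 2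

/-- the `m ≥ 1` with `m ^ 2 + 1, m ^ 2 + 3 ∈ R` -/
def pairs (a : (w : Nat.Primes) → ZMod (w : ℕ)) : Set ℕ := {m | 1 ≤ m ∧ m ^ 2 + 1 ∈ R a ∧ m ^ 2 + 3 ∈ R a}

/-- the number `Q n` of the `m ≥ 1` with `m ^ 2 + 1, m ^ 2 + 3 ∈ R` and `m ^ 2 + 3 < n` -/
noncomputable def Q (a : (w : Nat.Primes) → ZMod (w : ℕ)) (n : ℝ) : ℕ :=
  {m : ℕ | 1 ≤ m ∧ m ^ 2 + 1 ∈ R a ∧ m ^ 2 + 3 ∈ R a ∧ ((m : ℝ) ^ 2 + 3) < n}.ncard

/-- the number of the `1 ≤ m ≤ N` with `m ^ 2 + 1, m ^ 2 + 3 ∈ R` -/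
noncomputable def count (a : (w : Nat.Primes) → ZMod (w : ℕ)) (N : ℕ) : ℕ :=
  {m : ℕ | 1 ≤ m ∧ m ≤ N ∧ m ^ 2 + 1 ∈ R a ∧ m ^ 2 + 3 ∈ R a}.ncard

/-- Almost surely there are infinitely many `m` with `m ^ 2 + 1, m ^ 2 + 3 ∈ R` if and only if `a 3 ≠ 1`; and if
this is the case, the product of `w (w - v w) / (w - 1) ^ 2` over the primes `w ≥ 5` (in increasing order)
converges to some `S > 0`, `(log n) ^ 2 / √n * Q n → c S` with `c = 3` if `a 3 = 0` and `c = 3 / 2` if `a 3 = 2`,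
and the number of the `m ≤ N` with `m ^ 2 + 1, m ^ 2 + 3 ∈ R` is
`c S ∑_(3 ≤ m ≤ N) 1 / (log (m ^ 2 + 1) log (m ^ 2 + 3)) + O(N ^ (1 / 2 + ε))` for every `ε > 0`. -/
theorem result : ∀ᵐ a ∂law,
    ((pairs a).Infinite ↔ a ⟨3, Nat.prime_three⟩ ≠ 1) ∧
    (a ⟨3, Nat.prime_three⟩ ≠ 1 →
      ∃ S : ℝ, 0 < S ∧ Tendsto (product a) atTop (𝓝 S) ∧
        Tendsto (fun n : ℝ => Real.log n ^ 2 / √n * Q a n) atTop (𝓝 (factor a * S)) ∧
        ∀ ε : ℝ, 0 < ε →
          (fun N : ℕ => (count a N : ℝ) - factor a * S *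
            ∑ m ∈ Finset.Icc 3 N, 1 / (Real.log ((m : ℝ) ^ 2 + 1) * Real.log ((m : ℝ) ^ 2 + 3)))
              =O[atTop] fun N : ℕ => (N : ℝ) ^ (1 / 2 + ε)) :=
  Pool.Agent.W2helper14.RB.sq_ae

end Pool.Agent.Results.MP_a30aa5_nt.RandomSievePairs
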